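import Pool.Agent.KDT.StmtsK

/-!
# KDT, row INB: a combination of the monomials does not vanish on the Jacobian
-/

set_option autoImplicit false

namespace Pool.Agent.KDT.H50

open Polynomial Pool.Agent.SZT Pool.Agent.KDT

/-- pseudo division by a quadratic polynomial -/
theorem pdiv {R : Type} [CommRing R] (a b d : R) : ∀ (n : ℕ) (P : R[X]), P.natDegree < n →
    ∃ (m : ℕ) (G r : R[X]),
      C (a ^ m) * P = (C a * X ^ 2 + C b * X + C d) * G + r ∧ r.natDegree ≤ 1 := by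
  intro n
  induction n with
  | zero => intro P h; omega
  | succ n ih =>
    intro P hP
    by_cases h2 : P.natDegree ≤ 1
    · exact ⟨0, 0, P, by simp, h2⟩
    · push Not at h2
      obtain ⟨k, hk⟩ : ∃ k, P.natDegree = k + 2 := ⟨P.natDegree - 2, by omega⟩
      have hz : ∀ N, k + 2 < N → P.coeff N = 0 := fun N hN =>
        coeff_eq_zero_of_natDegree_lt (by omega)
      obtain ⟨m, G, r, h, hr⟩ := ih
        (C a * P - (C a * X ^ 2 + C b * X + C d) * (C (P.coeff (k + 2)) * X ^ k)) (by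
        refine lt_of_le_of_lt (b := k + 1) ?_ (by omega)
        rw [natDegree_le_iff_coeff_eq_zero]
        intro N hN
        have e : (C a * X ^ 2 + C b * X + C d) * (C (P.coeff (k + 2)) * X ^ k) =
            C (a * P.coeff (k + 2)) * X ^ (k + 2) + C (b * P.coeff (k + 2)) * X ^ (k + 1) +
              C (d * P.coeff (k + 2)) * X ^ k := by
          rw [C_mul, C_mul, C_mul]
          ring
        rw [e]
        simp only [coeff_sub, coeff_add, coeff_C_mul, coeff_X_pow]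
        by_cases h1 : N = k + 2
        · subst h1
          simp
        · rw [hz N (by omega), if_neg h1, if_neg (by omega), if_neg (by omega)]
          simp)
      refine ⟨m + 1, G + C (a ^ m) * (C (P.coeff (k + 2)) * X ^ k), r, ?_, hr⟩
      rw [pow_succ, C_mul]
      linear_combination h

/-- the Mumford pair of two points -/
theorem mum_of {E : Type} [Field E] (f : E[X]) (x₁ x₂ y₁ y₂ : E) (hx : x₁ ≠ x₂)
    (h1 : y₁ ^ 2 = f.eval x₁) (h2 : y₂ ^ 2 = f.eval x₂) :
    ∃ A B : E[X], Mum f A B ∧ A.natDegree = 2 ∧ A.coeff 1 = -(x₁ + x₂) ∧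
      A.coeff 0 = x₁ * x₂ ∧ B.coeff 1 = (y₁ - y₂) / (x₁ - x₂) := by
  have hd : x₁ - x₂ ≠ 0 := sub_ne_zero.2 hx
  set b := (y₁ - y₂) / (x₁ - x₂) with hb
  have hA : (X - C x₁) * (X - C x₂) = (X ^ 2 + (C (-(x₁ + x₂)) * X + C (x₁ * x₂)) : E[X]) := by
    rw [C_neg, C_add, C_mul]
    ring
  have hmon : ((X - C x₁) * (X - C x₂) : E[X]).Monic := (monic_X_sub_C _).mul (monic_X_sub_C _)
  have hdeg : ((X - C x₁) * (X - C x₂) : E[X]).natDegree = 2 := by
    rw [(monic_X_sub_C x₁).natDegree_mul (monic_X_sub_C x₂), natDegree_X_sub_C, natDegree_X_sub_C]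
  refine ⟨(X - C x₁) * (X - C x₂), C b * X + C (y₁ - b * x₁), ⟨hmon, ?_, ?_⟩, hdeg, ?_, ?_, ?_⟩
  · rw [degree_eq_natDegree hmon.ne_zero, hdeg]
    refine lt_of_le_of_lt (degree_linear_le) ?_
    norm_num
  · refine IsCoprime.mul_dvd ?_ ?_ ?_
    · exact isCoprime_X_sub_C_of_isUnit_sub (IsUnit.mk0 _ hd)
    · rw [dvd_iff_isRoot, IsRoot.def, eval_sub, eval_pow, eval_add, eval_mul, eval_C, eval_X,
        eval_C, ← h1]
      ring
    · rw [dvd_iff_isRoot, IsRoot.def, eval_sub, eval_pow, eval_add, eval_mul, eval_C, eval_X,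
        eval_C, ← h2, hb]
      field_simp
      ring
  · rw [hA]
    simp [coeff_C]
  · rw [hA]
    simp
  · simp

/-- the coefficient of `T` in the Kummer quartic -/
noncomputable def K1 {L : Type} [Field L] (f : L[X]) : L[X][X] :=
  -2 * (2 * C (C (f.coeff 0)) + C (C (f.coeff 1)) * X + 2 * C (C (f.coeff 2)) * C X +
    C (C (f.coeff 3)) * X * C X + 2 * C (C (f.coeff 4)) * C X ^ 2 + X * C X ^ 2)

/-- the constant coefficient of the Kummer quartic -/
noncomputable def K0 {L : Type} [Field L] (f : L[X]) : L[X][X] :=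
  -4 * C (C (f.coeff 0)) * C (C (f.coeff 2)) + C (C (f.coeff 1)) ^ 2
    - 4 * X * C (C (f.coeff 0)) * C (C (f.coeff 3))
    - 2 * C X * C (C (f.coeff 1)) * C (C (f.coeff 3))
    - 4 * X ^ 2 * C (C (f.coeff 0)) * C (C (f.coeff 4))
    + 4 * X * C X * C (C (f.coeff 0))
    - 4 * X * C X * C (C (f.coeff 1)) * C (C (f.coeff 4))
    + 2 * C X ^ 2 * C (C (f.coeff 1))
    - 4 * C X ^ 2 * C (C (f.coeff 2)) * C (C (f.coeff 4))
    + C X ^ 2 * C (C (f.coeff 3)) ^ 2
    - 4 * X ^ 3 * C (C (f.coeff 0))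
    - 4 * X ^ 2 * C X * C (C (f.coeff 1))
    - 4 * X * C X ^ 2 * C (C (f.coeff 2))
    - 2 * C X ^ 3 * C (C (f.coeff 3)) + C X ^ 4

theorem quart_eq {L E : Type} [Field L] [Field E] (ι : L[X][X] →+* E) (f : L[X]) (T : E) :
    quart (f.map (ι.comp (C.comp C))) ![1, ι X, ι (C X), T] =
      (ι X ^ 2 - 4 * ι (C X)) * T ^ 2 + ι (K1 f) * T + ι (K0 f) := by
  unfold quart K1 K0
  simp only [coeff_map, RingHom.comp_apply, map_add, map_sub, map_mul, map_pow, map_neg,
    map_ofNat, Matrix.cons_val_zero, Matrix.cons_val_one, Matrix.cons_val]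
  ring

/-- the combination of the monomials as a polynomial in `T` -/
noncomputable def FF {L : Type} [Field L] (κ : ℕ) (c : Ex κ → L) : L[X][X][X] :=
  ∑ e : Ex κ, C (C (C (c e) * X ^ (e.1 2)) * X ^ (e.1 1)) * X ^ (e.1 3)

theorem FF_eval {L E : Type} [Field L] [Field E] (ι : L[X][X] →+* E) (κ : ℕ) (c : Ex κ → L)
    (T : E) : (FF κ c).eval₂ ι T =
      ∑ e : Ex κ, (ι.comp (C.comp C)) (c e) * mon e.1 ![1, ι X, ι (C X), T] := by
  unfold FF
  rw [eval₂_finsetSum]
  refine Finset.sum_congr rfl fun e _ => ?_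
  rw [eval₂_mul, eval₂_C, eval₂_X_pow, mon, Fin.prod_univ_four, map_mul, map_pow, C_mul, C_pow,
    map_mul, map_pow]
  simp only [Matrix.cons_val_zero, Matrix.cons_val_one, Matrix.cons_val, one_pow, one_mul,
    RingHom.comp_apply]
  ring

theorem FF_coeff {L : Type} [Field L] (κ : ℕ) (c : Ex κ → L) (d : ℕ) :
    (FF κ c).coeff d = ∑ e : Ex κ, if e.1 3 = d then C (C (c e) * X ^ (e.1 2)) * X ^ (e.1 1)
      else 0 := by
  unfold FF
  rw [finsetSum_coeff]
  refine Finset.sum_congr rfl fun e _ => ?_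
  rw [coeff_C_mul_X_pow]
  by_cases h : e.1 3 = d
  · rw [if_pos h, if_pos h.symm]
  · rw [if_neg h, if_neg (fun h' => h h'.symm)]

theorem FF_deg {L : Type} [Field L] (κ : ℕ) (c : Ex κ → L) (d : ℕ) (hd : 2 ≤ d) :
    ((FF κ c).coeff d).natDegree ≤ 1 := by
  rw [FF_coeff]
  refine natDegree_sum_le_of_forall_le _ _ fun e _ => ?_
  by_cases h : e.1 3 = d
  · rw [if_pos h]
    have h1 := (Finset.mem_filter.1 e.2).2.2
    refine (natDegree_C_mul_X_pow_le _ _).trans ?_
    omega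
  · rw [if_neg h]
    simp

theorem FF_zero {L : Type} [Field L] (κ : ℕ) (c : Ex κ → L) (h : FF κ c = 0) : c = 0 := by
  funext e₀
  have h1 : (((FF κ c).coeff (e₀.1 3)).coeff (e₀.1 1)).coeff (e₀.1 2) = 0 := by
    rw [h]
    simp
  rw [FF_coeff, finsetSum_coeff, finsetSum_coeff, Finset.sum_eq_single e₀] at h1
  · rw [if_pos rfl, coeff_C_mul_X_pow, if_pos rfl, coeff_C_mul_X_pow, if_pos rfl] at h1
    exact h1
  · intro e _ hne
    by_cases h3 : e.1 3 = e₀.1 3
    · rw [if_pos h3, coeff_C_mul_X_pow]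
      by_cases h4 : e₀.1 1 = e.1 1
      · rw [if_pos h4, coeff_C_mul_X_pow]
        by_cases h5 : e₀.1 2 = e.1 2
        · exfalso
          refine hne (Subtype.ext (funext fun i => ?_))
          have h6 := (Finset.mem_filter.1 e.2).2.1
          have h7 := (Finset.mem_filter.1 e₀.2).2.1
          fin_cases i
          · show e.1 0 = e₀.1 0
            omega
          · exact h4.symm
          · exact h5.symm
          · exact h3
        · rw [if_neg h5]
      · rw [if_neg h4]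
        simp
    · rw [if_neg h3]
      simp
  · intro hn
    exact absurd (Finset.mem_univ _) hn

/-- the substitution `s = 2 t`, `p = t ^ 2` -/
theorem K1_ndvd {L : Type} [Field L] (h2 : (2 : L) ≠ 0) (f : L[X]) (hf : f.Monic)
    (hd : f.natDegree = 5) : ¬ (X ^ 2 - C (C 4 * X) : L[X][X]) ∣ K1 f := by
  intro hdvd
  let ψ : L[X][X] →+* L[X] := eval₂RingHom (eval₂RingHom C (X ^ 2 : L[X])) (2 * X)
  have hC : ∀ a : L, ψ (C (C a)) = C a := by
    intro a
    simp [ψ]
  have hX : ψ X = 2 * X := by simp [ψ]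
  have hp : ψ (C X) = X ^ 2 := by simp [ψ]
  have h0 : ψ (X ^ 2 - C (C 4 * X)) = 0 := by
    rw [map_sub, map_pow, hX, C_mul, map_mul, hC, hp]
    have : (C (4 : L) : L[X]) = 4 := map_ofNat C 4
    rw [this]
    ring
  have h1 : ψ (K1 f) = 0 := by
    obtain ⟨g, hg⟩ := hdvd
    rw [hg, map_mul, h0, zero_mul]
  have h3 : ψ (K1 f) = C (-4) * f := by
    have hfs : f = C (f.coeff 0) + C (f.coeff 1) * X + C (f.coeff 2) * X ^ 2 +
        C (f.coeff 3) * X ^ 3 + C (f.coeff 4) * X ^ 4 + X ^ 5 := by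
      have h5 : f.coeff 5 = 1 := by
        rw [← hd]
        exact hf.coeff_natDegree
      conv_lhs => rw [f.as_sum_range' 6 (by omega)]
      simp only [Finset.sum_range_succ, Finset.sum_range_zero, ← C_mul_X_pow_eq_monomial, h5]
      simp
    unfold K1
    simp only [map_mul, map_add, map_pow, map_neg, map_ofNat, hC, hX, hp]
    conv_rhs => rw [hfs]
    ring
  rw [h3] at h1
  have h4 : (C (-4 : L) : L[X]) ≠ 0 := by
    rw [Ne, C_eq_zero, neg_eq_zero]
    have : (4 : L) = 2 * 2 := by norm_num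
    rw [this]
    exact mul_ne_zero h2 h2
  exact mul_ne_zero h4 hf.ne_zero h1

/-- the row over an algebraically closed field, in a given extension -/
theorem inb_closed (h1 : InaStatement) (h2 : KquStatement) (L : Type) [Field L] [CharZero L]
    [IsAlgClosed L] (E : Type) [Field E] [CharZero E] [IsAlgClosed E] (ι : L[X][X] →+* E)
    (hι : Function.Injective ι) (f : L[X]) (κ : ℕ) (c : Ex κ → L) (hf : f.Monic)
    (hd : f.natDegree = 5) (hc : c ≠ 0) (φ : L →+* E) (hφ : φ = ι.comp (C.comp C)) :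
    ∃ A B : E[X], Mum (f.map φ) A B ∧
      A.natDegree = 2 ∧ (A.coeff 1) ^ 2 ≠ 4 * A.coeff 0 ∧
      ∑ e, φ (c e) * mon e.1 (kum (f.map φ) A B) ≠ 0 := by
  have h20 : (2 : E) ≠ 0 := two_ne_zero
  have h2L : (2 : L) ≠ 0 := two_ne_zero
  have h4 : ι (X ^ 2 - C (C 4 * X)) = ι X ^ 2 - 4 * ι (C X) := by
    have : (C (C (4 : L)) : L[X][X]) = 4 := by
      rw [map_ofNat, map_ofNat]
    rw [map_sub, map_pow, C_mul, this, map_mul, map_ofNat]
  have hmon : (X ^ 2 - C (C 4 * X) : L[X][X]).Monic := monic_X_pow_sub_C _ two_ne_zero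
  have hdisc : ι X ^ 2 - 4 * ι (C X) ≠ 0 := by
    rw [← h4, Ne, map_eq_zero_iff _ hι]
    exact hmon.ne_zero
  obtain ⟨δ, hδ⟩ := IsAlgClosed.exists_pow_nat_eq (ι X ^ 2 - 4 * ι (C X)) (n := 2) (by norm_num)
  have hδ0 : δ ≠ 0 := by
    intro h
    rw [h] at hδ
    exact hdisc (by rw [← hδ]; ring)
  -- the two points
  set x₁ : E := (ι X + δ) / 2 with hx₁
  set x₂ : E := (ι X - δ) / 2 with hx₂
  have hs : x₁ + x₂ = ι X := by
    rw [hx₁, hx₂]
    ring
  have hp : x₁ * x₂ = ι (C X) := by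
    have : x₁ * x₂ = (ι X ^ 2 - δ ^ 2) / 4 := by
      rw [hx₁, hx₂]
      ring
    rw [this, hδ]
    ring
  have hsub : x₁ - x₂ = δ := by
    rw [hx₁, hx₂]
    ring
  have hne : x₁ ≠ x₂ := by
    intro h
    exact hδ0 (by rw [← hsub, h, sub_self])
  -- no root of `f`
  have hroot : ∀ x : E, x ^ 2 - ι X * x + ι (C X) = 0 → (f.map φ).eval x ≠ 0 := by
    intro x hx hfx
    obtain ⟨r, hr⟩ := (IsAlgClosed.splits f).mem_range_of_isRoot hf.ne_zero
      (i := φ) (x := x) hfx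
    have e : ι (C (C r) ^ 2 - X * C (C r) + C X) = 0 := by
      rw [map_add, map_sub, map_pow, map_mul]
      have : ι (C (C r)) = x := by
        rw [← hr, hφ]
        rfl
      rw [this]
      exact hx
    have e2 := (map_eq_zero_iff _ hι).1 e
    have e3 := congrArg (fun q : L[X][X] => (q.coeff 0).coeff 1) e2
    have e4 : (C (C r) ^ 2 - X * C (C r) + C X : L[X][X]).coeff 0 = C (r ^ 2) + X := by
      rw [← C_pow, coeff_add, coeff_sub, mul_coeff_zero, coeff_C_zero, coeff_C_zero, coeff_X_zero,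
        zero_mul, sub_zero, ← C_pow, coeff_C_zero]
    simp only [e4, coeff_add, coeff_C, coeff_X, coeff_zero] at e3
    simp at e3
  have hr₁ : (f.map φ).eval x₁ ≠ 0 := hroot x₁ (by rw [← hs, ← hp]; ring)
  have hr₂ : (f.map φ).eval x₂ ≠ 0 := hroot x₂ (by rw [← hs, ← hp]; ring)
  obtain ⟨y₁, hy₁⟩ := IsAlgClosed.exists_pow_nat_eq ((f.map φ).eval x₁) (n := 2) (by norm_num)
  obtain ⟨y₂, hy₂⟩ := IsAlgClosed.exists_pow_nat_eq ((f.map φ).eval x₂) (n := 2) (by norm_num)
  have hy₁0 : y₁ ≠ 0 := by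
    intro h
    exact hr₁ (by rw [← hy₁, h]; ring)
  have hy₂0 : y₂ ≠ 0 := by
    intro h
    exact hr₂ (by rw [← hy₂, h]; ring)
  obtain ⟨A, B, hM, hA2, hA1, hA0, hB1⟩ := mum_of (f.map φ) x₁ x₂ y₁ y₂ hne hy₁ hy₂
  obtain ⟨A', B', hM', hA2', hA1', hA0', hB1'⟩ := mum_of (f.map φ) x₁ x₂ y₁ (-y₂) hne hy₁
    (by rw [neg_sq]; exact hy₂)
  have hkum : ∀ A B : E[X], A.coeff 1 = -(x₁ + x₂) → A.coeff 0 = x₁ * x₂ →
      kum (f.map φ) A B = ![1, ι X, ι (C X), kum (f.map φ) A B 3] := by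
    intro A B h5 h6
    funext i
    fin_cases i
    · rfl
    · show -A.coeff 1 = ι X
      rw [h5, hs, neg_neg]
    · show A.coeff 0 = ι (C X)
      rw [h6, hp]
    · rfl
  by_contra hno
  push Not at hno
  have hz : ∑ e, φ (c e) * mon e.1 (kum (f.map φ) A B) = 0 := by
    refine hno A B hM hA2 ?_
    rw [hA1, hA0, hs, hp, neg_sq]
    exact sub_ne_zero.1 hdisc
  have hz' : ∑ e, φ (c e) * mon e.1 (kum (f.map φ) A' B') = 0 := by
    refine hno A' B' hM' hA2' ?_
    rw [hA1', hA0', hs, hp, neg_sq]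
    exact sub_ne_zero.1 hdisc
  have hfm : (f.map φ).Monic := hf.map φ
  have hfd : (f.map φ).natDegree = 5 := by
    rw [hf.natDegree_map]
    exact hd
  have hq := h2.1 E (f.map φ) A B hfm hfd hM hA2
  have hq' := h2.1 E (f.map φ) A' B' hfm hfd hM' hA2'
  rw [hkum A B hA1 hA0] at hz hq
  rw [hkum A' B' hA1' hA0'] at hz' hq'
  set β : E := kum (f.map φ) A B 3 with hβ
  set β' : E := kum (f.map φ) A' B' 3 with hβ'
  have hββ : β - β' ≠ 0 := by
    have e1 : β - β' = B.coeff 1 ^ 2 - B'.coeff 1 ^ 2 := by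
      rw [hβ, hβ']
      show (B.coeff 1 ^ 2 - (-A.coeff 1) ^ 3 + (-A.coeff 1) * A.coeff 0 -
        (f.map φ).coeff 4 * (-A.coeff 1) ^ 2 - (f.map φ).coeff 3 * (-A.coeff 1) -
        (f.map φ).coeff 2) - (B'.coeff 1 ^ 2 - (-A'.coeff 1) ^ 3 + (-A'.coeff 1) * A'.coeff 0 -
        (f.map φ).coeff 4 * (-A'.coeff 1) ^ 2 - (f.map φ).coeff 3 * (-A'.coeff 1) -
        (f.map φ).coeff 2) = _
      rw [hA1, hA0, hA1', hA0']
      ring
    rw [e1, hB1, hB1', hsub]
    have e2 : ((y₁ - y₂) / δ) ^ 2 - ((y₁ - -y₂) / δ) ^ 2 = -(4 * y₁ * y₂) / δ ^ 2 := by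
      field_simp
      ring
    rw [e2]
    refine div_ne_zero (neg_ne_zero.2 (mul_ne_zero (mul_ne_zero ?_ hy₁0) hy₂0)) (pow_ne_zero _ hδ0)
    have : (4 : E) = 2 * 2 := by norm_num
    rw [this]
    exact mul_ne_zero h20 h20
  have hfv : ∀ T : E, ∑ e, φ (c e) * mon e.1 ![1, ι X, ι (C X), T] = (FF κ c).eval₂ ι T :=
    fun T => by rw [FF_eval ι κ c T, hφ]
  rw [hfv] at hz hz'
  have hqv : ∀ T : E, quart (f.map φ) ![1, ι X, ι (C X), T] =
      (ι X ^ 2 - 4 * ι (C X)) * T ^ 2 + ι (K1 f) * T + ι (K0 f) := fun T => by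
    rw [hφ]
    exact quart_eq ι f T
  rw [hqv] at hq hq'
  -- pseudo division
  obtain ⟨m, G, r, hG, hrd⟩ := pdiv (X ^ 2 - C (C 4 * X) : L[X][X]) (K1 f) (K0 f) _ (FF κ c)
    (Nat.lt_succ_self _)
  have hrv : ∀ T : E, (FF κ c).eval₂ ι T = 0 →
      (ι X ^ 2 - 4 * ι (C X)) * T ^ 2 + ι (K1 f) * T + ι (K0 f) = 0 → r.eval₂ ι T = 0 := by
    intro T hT hT'
    have e := congrArg (fun q => eval₂ ι T q) hG
    simp only [eval₂_mul, eval₂_add, eval₂_C, eval₂_X, eval₂_X_pow, hT, mul_zero, h4, hT',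
      zero_mul, zero_add] at e
    exact e.symm
  have hrβ := hrv β hz hq
  have hrβ' := hrv β' hz' hq'
  obtain ⟨u, w, huw⟩ := exists_eq_X_add_C_of_natDegree_le_one hrd
  rw [huw] at hrβ hrβ'
  simp only [eval₂_mul, eval₂_add, eval₂_C, eval₂_X] at hrβ hrβ'
  have hu : ι u = 0 := by
    have : ι u * (β - β') = 0 := by linear_combination hrβ - hrβ'
    rcases mul_eq_zero.1 this with h | h
    · exact h
    · exact absurd h hββ
  have hw : ι w = 0 := by
    rw [hu] at hrβ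
    linear_combination hrβ
  have hr0 : r = 0 := by
    rw [huw, (map_eq_zero_iff _ hι).1 hu, (map_eq_zero_iff _ hι).1 hw]
    simp
  rw [hr0, add_zero] at hG
  have hF := h1 L (K1 f) (K0 f) (FF κ c) G m h2L (K1_ndvd h2L f hf hd) (FF_deg κ c) hG
  exact hc (FF_zero κ c hF)

theorem inb (h1 : InaStatement) (h2 : KquStatement) : InbStatement := by
  intro K _ _ f κ c hf hd _ hc
  have hinj : Function.Injective (algebraMap K (AlgebraicClosure K)) := RingHom.injective _
  have h0 : CharZero (AlgebraicClosure K) := charZero_of_injective_ringHom hinj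
  have hi : Function.Injective ((algebraMap (FractionRing (AlgebraicClosure K)[X][X])
      (AlgebraicClosure (FractionRing (AlgebraicClosure K)[X][X]))).comp
      (algebraMap (AlgebraicClosure K)[X][X] (FractionRing (AlgebraicClosure K)[X][X]))) := by
    rw [RingHom.coe_comp]
    exact Function.Injective.comp (RingHom.injective _) (IsFractionRing.injective _ _)
  have hi2 : Function.Injective ((((algebraMap (FractionRing (AlgebraicClosure K)[X][X])
      (AlgebraicClosure (FractionRing (AlgebraicClosure K)[X][X]))).comp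
      (algebraMap (AlgebraicClosure K)[X][X] (FractionRing (AlgebraicClosure K)[X][X])))).comp
      (C.comp C)) := by
    rw [RingHom.coe_comp, RingHom.coe_comp]
    exact hi.comp (C_injective.comp C_injective)
  have h0' : CharZero (AlgebraicClosure (FractionRing (AlgebraicClosure K)[X][X])) :=
    charZero_of_injective_ringHom hi2
  obtain ⟨A, B, h3, h4, h5, h6⟩ := inb_closed h1 h2 (AlgebraicClosure K)
    (AlgebraicClosure (FractionRing (AlgebraicClosure K)[X][X])) _ hi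
    (f.map (algebraMap K (AlgebraicClosure K))) κ
    (fun e => algebraMap K (AlgebraicClosure K) (c e)) (hf.map _)
    (by rw [hf.natDegree_map]; exact hd) (by
      intro h
      refine hc (funext fun e => ?_)
      have := congrFun h e
      exact (map_eq_zero_iff _ hinj).1 this) _ rfl
  rw [Polynomial.map_map] at h3 h6
  exact ⟨_, _, _, A, B, h3, h4, h5, h6⟩

end Pool.Agent.KDT.H50
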